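import Pool.Agent.Run7.h231.Star.Main
import Pool.Agent.Run7.h231.Star.Model

/-! Over `RCA*₀` the cohesiveness principle implies `Σ⁰₁` induction; hence `RCA*₀ + COH` is not
`Π¹₁`-conservative over `RCA*₀`: a full negative answer to Q1. -/

namespace Pool.Agent.Results.MP_a3848c_lc.NotConservative

open Run7.h231

/-- Every model of `RCA*₀` and `COH` satisfies `Σ⁰₁` induction, and `RCA*₀ + COH` is not
`Π¹₁`-conservative over `RCA*₀`. -/
theorem result :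
    (∀ 𝓜 : L2Model, RCA0Star 𝓜 → 𝓜.COH → 𝓜.SigmaInd) ∧
      ¬ Pi11Conservative (fun 𝓜 => RCA0Star 𝓜 ∧ 𝓜.COH) RCA0Star := by
  have h1 : ∀ 𝓜 : L2Model, RCA0Star 𝓜 → 𝓜.COH → 𝓜.SigmaInd := by
    intro 𝓜 h hC
    haveI : Run7.h231.Star.Star 𝓜 := ⟨h⟩
    exact Run7.h231.Star.sigmaInd_of_coh hC
  refine ⟨h1, fun hcons => ?_⟩
  apply Run7.h231.Star.NM_not_ind
  refine hcons Run7.h231.Star.indF ?_ _ Run7.h231.Star.NM_rca0Star
  rintro 𝓜 ⟨h, hC⟩ Ξ hΞ ρ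
  rw [Run7.h231.Star.indF_sat]
  have h2 := h1 𝓜 h hC (.mem (Run7.h231.Star.pairT (.var 0) (.var 1)) 0) trivial Ξ hΞ ρ
  have h3 : ∀ n x, (Fml.mem (Run7.h231.Star.pairT (.var 0) (.var 1)) 0).Sat2 𝓜 Ξ ρ n x ↔
      𝓜.pair n x ∈ Ξ 0 := by
    intro n x
    simp only [Fml.Sat2, Fml.Sat, Run7.h231.Star.pairT, Trm.val, Function.update_self,
      Function.update_of_ne, ne_eq, zero_ne_one, not_false_eq_true, L2Model.pair]
  simp only [h3] at h2
  exact h2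

end Pool.Agent.Results.MP_a3848c_lc.NotConservative
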